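import Pool.Agent.Run7.h18.KR.Sp

/-!
# The points of the branches and the choice of branches through open sets
-/

set_option autoImplicit false

open Set TopologicalSpace Topology Filter

namespace Run7.h18.KR

open Run7.h917

universe u

variable {X : Type u} [TopologicalSpace X]

/-- the statement of `Tree.exists_point` -/
def PtH (𝒯 : h917.Tree X) : Prop :=
  ∀ (k : ℕ) (z : ℕ → Fin 3) (s : ℝ), 0 < s → 𝒯.Alive k z s →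
    ∃ x : X, (∀ U : Set X, IsOpen U → (x ∈ U ↔ ∃ n, ∀ y, y ∉ U → 𝒯.h k (pre z n) y = 0)) ∧
      ∀ n, s ≤ 𝒯.h k (pre z n) x

noncomputable section

/-- the point of a branch -/
def pt {𝒯 : h917.Tree X} (H : PtH 𝒯) (p : Pp 𝒯) : X :=
  (H p.1.1 p.1.2.1 p.1.2.2 p.2.1 p.2.2).choose

theorem pt_mem {𝒯 : h917.Tree X} (H : PtH 𝒯) (p : Pp 𝒯) {U : Set X} (hU : IsOpen U) :
    pt H p ∈ U ↔ ∃ n, ∀ y, y ∉ U → 𝒯.h p.1.1 (pre p.1.2.1 n) y = 0 :=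
  (H p.1.1 p.1.2.1 p.1.2.2 p.2.1 p.2.2).choose_spec.1 U hU

theorem le_pt {𝒯 : h917.Tree X} (H : PtH 𝒯) (p : Pp 𝒯) (n : ℕ) :
    p.1.2.2 ≤ 𝒯.h p.1.1 (pre p.1.2.1 n) (pt H p) :=
  (H p.1.1 p.1.2.1 p.1.2.2 p.2.1 p.2.2).choose_spec.2 n

theorem isOpen_pt {𝒯 : h917.Tree X} (H : PtH 𝒯) {U : Set X} (hU : IsOpen U) :
    IsOpen (pt H ⁻¹' U) := by
  have h1 : pt H ⁻¹' U = (Subtype.val : {p : Amb // 0 < p.2.2 ∧ 𝒯.Alive p.1 p.2.1 p.2.2} → Amb) ⁻¹'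
      (⋃ (k : ℕ) (n : ℕ), ({k} : Set ℕ) ×ˢ
        ({z : ℕ → Fin 3 | pre z n ∈ {τ | ∀ y, y ∉ U → 𝒯.h k τ y = 0}} ×ˢ (univ : Set ℝ))) := by
    ext p
    constructor
    · intro hp
      obtain ⟨n, hn⟩ := (pt_mem H p hU).1 hp
      exact mem_iUnion.2 ⟨p.1.1, mem_iUnion.2 ⟨n, rfl, hn, trivial⟩⟩
    · intro hp
      have hp' : p.1 ∈ (⋃ (k : ℕ) (n : ℕ), ({k} : Set ℕ) ×ˢ
        ({z : ℕ → Fin 3 | pre z n ∈ {τ | ∀ y, y ∉ U → 𝒯.h k τ y = 0}} ×ˢ (univ : Set ℝ))) := hp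
      obtain ⟨k, hk⟩ := mem_iUnion.1 hp'
      obtain ⟨n, hn1, hn2, -⟩ := mem_iUnion.1 hk
      have hn1' : p.1.1 = k := hn1
      exact (pt_mem H p hU).2 ⟨n, by rw [hn1']; exact hn2⟩
  rw [h1]
  refine IsOpen.preimage continuous_subtype_val ?_
  refine isOpen_iUnion fun k => isOpen_iUnion fun n => ?_
  exact (isOpen_discrete _).prod ((isOpen_pre n _).prod isOpen_univ)

/-! ### The choice of branches -/

/-- the `n`-th test: the child `n % 3` of the node `σ` of the tree `l`, the prefix of length `n / 3` -/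
def Q (𝒯 : h917.Tree X) (k l : ℕ) (b : ℝ) (z : ℕ → Fin 3) (σ : List (Fin 3)) (n : ℕ) : Prop :=
  ∀ y, y ∉ 𝒯.G l (Fin.ofNat 3 n :: σ) b → 𝒯.h k (pre z (n / 3)) y = 0

open Classical in
/-- the next letter -/
def nx (𝒯 : h917.Tree X) (k l : ℕ) (b : ℝ) (z : ℕ → Fin 3) (σ : List (Fin 3)) : Fin 3 :=
  if h : ∃ n, Q 𝒯 k l b z σ n then Fin.ofNat 3 (Nat.find h) else 0

/-- the nodes -/
def sg (𝒯 : h917.Tree X) (k l : ℕ) (b : ℝ) (σ : List (Fin 3)) (z : ℕ → Fin 3) : ℕ → List (Fin 3)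
  | 0 => σ
  | n + 1 => nx 𝒯 k l b z (sg 𝒯 k l b σ z n) :: sg 𝒯 k l b σ z n

/-- the branch through `σ` with the following letters `g` -/
def ext (σ : List (Fin 3)) (g : ℕ → Fin 3) (m : ℕ) : Fin 3 :=
  if h : m < σ.length then σ.reverse[m]'(by simpa using h) else g (m - σ.length)

theorem ext_add (σ : List (Fin 3)) (g : ℕ → Fin 3) (n : ℕ) : ext σ g (σ.length + n) = g n := by
  unfold ext
  rw [dif_neg (by omega)]
  congr 1; omega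

theorem pre_ext_zero (σ : List (Fin 3)) (f : ℕ → Fin 3)
    (hf : ∀ (m : ℕ) (h : m < σ.length), f m = σ.reverse[m]'(by simpa using h)) :
    pre f σ.length = σ := by
  induction σ with
  | nil => rfl
  | cons a σ ih =>
    change f σ.length :: pre f σ.length = a :: σ
    have h1 : f σ.length = a := by
      rw [hf σ.length (by simp)]
      simp
    rw [h1, ih]
    intro m hm
    rw [hf m (by simp; omega)]
    simp only [List.reverse_cons]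
    rw [List.getElem_append_left]

theorem pre_ext (σ : List (Fin 3)) (g : ℕ → Fin 3) : pre (ext σ g) σ.length = σ := by
  apply pre_ext_zero
  intro m hm
  unfold ext
  rw [dif_pos hm]

/-- the new branch -/
def th (𝒯 : h917.Tree X) (k l : ℕ) (b : ℝ) (σ : List (Fin 3)) (z : ℕ → Fin 3) : ℕ → Fin 3 :=
  ext σ fun n => nx 𝒯 k l b z (sg 𝒯 k l b σ z n)

theorem pre_th (𝒯 : h917.Tree X) (k l : ℕ) (b : ℝ) (σ : List (Fin 3)) (z : ℕ → Fin 3) (n : ℕ) :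
    pre (th 𝒯 k l b σ z) (σ.length + n) = sg 𝒯 k l b σ z n := by
  induction n with
  | zero => exact pre_ext σ _
  | succ n ih =>
    change th 𝒯 k l b σ z (σ.length + n) :: pre (th 𝒯 k l b σ z) (σ.length + n) = _
    rw [ih]
    unfold th
    rw [ext_add]
    rfl

theorem pre_th_zero (𝒯 : h917.Tree X) (k l : ℕ) (b : ℝ) (σ : List (Fin 3)) (z : ℕ → Fin 3) :
    pre (th 𝒯 k l b σ z) σ.length = σ := pre_ext σ _

/-- local constancy of the next letter -/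
theorem nx_congr {𝒯 : h917.Tree X} {k l : ℕ} {b : ℝ} {z : ℕ → Fin 3} {σ : List (Fin 3)}
    (h : ∃ n, Q 𝒯 k l b z σ n) : ∃ N, ∀ z' : ℕ → Fin 3, (∀ i < N, z' i = z i) →
      nx 𝒯 k l b z' σ = nx 𝒯 k l b z σ := by
  classical
  refine ⟨Nat.find h, fun z' hz' => ?_⟩
  have h1 : ∀ n ≤ Nat.find h, (Q 𝒯 k l b z' σ n ↔ Q 𝒯 k l b z σ n) := by
    intro n hn
    unfold Q
    rw [pre_congr (z := z') (z' := z) (n := n / 3) fun i hi => hz' i (by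
      have := Nat.div_le_self n 3; omega)]
  have h2 : Q 𝒯 k l b z' σ (Nat.find h) := (h1 _ le_rfl).2 (Nat.find_spec h)
  have h3 : ∃ n, Q 𝒯 k l b z' σ n := ⟨_, h2⟩
  have h4 : Nat.find h3 = Nat.find h := by
    rw [Nat.find_eq_iff]
    exact ⟨h2, fun n hn hq => Nat.find_min h hn ((h1 n hn.le).1 hq)⟩
  unfold nx
  rw [dif_pos h, dif_pos h3, h4]

/-- the test which is passed -/
theorem nx_spec {𝒯 : h917.Tree X} {k l : ℕ} {b : ℝ} {z : ℕ → Fin 3} {σ : List (Fin 3)}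
    (h : ∃ n, Q 𝒯 k l b z σ n) : ∃ m, ∀ y, y ∉ 𝒯.G l (nx 𝒯 k l b z σ :: σ) b →
      𝒯.h k (pre z m) y = 0 := by
  classical
  refine ⟨Nat.find h / 3, ?_⟩
  have h2 : nx 𝒯 k l b z σ = Fin.ofNat 3 (Nat.find h) := by
    unfold nx
    rw [dif_pos h]
  rw [h2]
  exact Nat.find_spec h

theorem exists_Q {𝒯 : h917.Tree X} (H : PtH 𝒯) (p : Pp 𝒯) {l : ℕ} {b : ℝ} {σ : List (Fin 3)}
    (h : pt H p ∈ 𝒯.G l σ b) : ∃ n, Q 𝒯 p.1.1 l b p.1.2.1 σ n := by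
  obtain ⟨i, hi⟩ := 𝒯.G_step h
  obtain ⟨m, hm⟩ := (pt_mem H p (𝒯.isOpen_G l (i :: σ) b)).1 hi
  refine ⟨3 * m + i, ?_⟩
  unfold Q
  have e1 : (Fin.ofNat 3 (3 * m + (i : ℕ)) : Fin 3) = i := by
    apply Fin.ext
    simp [Fin.ofNat]
  have e2 : (3 * m + (i : ℕ)) / 3 = m := by omega
  rw [e1, e2]
  exact hm

theorem sg_mem {𝒯 : h917.Tree X} (H : PtH 𝒯) (p : Pp 𝒯) {l : ℕ} {b : ℝ} {σ : List (Fin 3)}
    (h : pt H p ∈ 𝒯.G l σ b) (n : ℕ) : pt H p ∈ 𝒯.G l (sg 𝒯 p.1.1 l b σ p.1.2.1 n) b := by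
  induction n with
  | zero => exact h
  | succ n ih =>
    obtain ⟨m, hm⟩ := nx_spec (exists_Q H p ih)
    exact (pt_mem H p (𝒯.isOpen_G l _ b)).2 ⟨m, hm⟩

theorem sg_congr {𝒯 : h917.Tree X} (H : PtH 𝒯) (p : Pp 𝒯) {l : ℕ} {b : ℝ} {σ : List (Fin 3)}
    (h : pt H p ∈ 𝒯.G l σ b) (n : ℕ) : ∃ N, ∀ z' : ℕ → Fin 3, (∀ i < N, z' i = p.1.2.1 i) →
      sg 𝒯 p.1.1 l b σ z' n = sg 𝒯 p.1.1 l b σ p.1.2.1 n := by
  induction n with
  | zero => exact ⟨0, fun _ _ => rfl⟩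
  | succ n ih =>
    obtain ⟨N, hN⟩ := ih
    obtain ⟨M, hM⟩ := nx_congr (exists_Q H p (sg_mem H p h n))
    refine ⟨max N M, fun z' hz' => ?_⟩
    have h1 := hN z' fun i hi => hz' i (hi.trans_le (le_max_left _ _))
    have h2 := hM z' fun i hi => hz' i (hi.trans_le (le_max_right _ _))
    change nx 𝒯 _ l b z' (sg 𝒯 _ l b σ z' n) :: sg 𝒯 _ l b σ z' n =
      nx 𝒯 _ l b _ (sg 𝒯 _ l b σ _ n) :: sg 𝒯 _ l b σ _ n
    rw [h1, h2]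

theorem th_congr {𝒯 : h917.Tree X} (H : PtH 𝒯) (p : Pp 𝒯) {l : ℕ} {b : ℝ} {σ : List (Fin 3)}
    (h : pt H p ∈ 𝒯.G l σ b) (m : ℕ) : ∃ N, ∀ z' : ℕ → Fin 3, (∀ i < N, z' i = p.1.2.1 i) →
      th 𝒯 p.1.1 l b σ z' m = th 𝒯 p.1.1 l b σ p.1.2.1 m := by
  obtain ⟨N, hN⟩ := sg_congr H p h (m + 1)
  refine ⟨N, fun z' hz' => ?_⟩
  have h1 := hN z' hz'
  rw [← pre_th, ← pre_th] at h1
  exact pre_eq_iff.1 h1 m (by omega)

/-- all the prefixes of the new branch are large at the point -/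
theorem lt_th {𝒯 : h917.Tree X} (H : PtH 𝒯) (p : Pp 𝒯) {l : ℕ} {b : ℝ} {σ : List (Fin 3)}
    (h : pt H p ∈ 𝒯.G l σ b) (n : ℕ) : b < 𝒯.h l (pre (th 𝒯 p.1.1 l b σ p.1.2.1) n) (pt H p) := by
  have h1 := sg_mem H p h n
  rw [← pre_th] at h1
  have h2 : b + (1 / 2 : ℝ) ^ ((pre (th 𝒯 p.1.1 l b σ p.1.2.1) (σ.length + n)).length + 1) <
    𝒯.h l (pre (th 𝒯 p.1.1 l b σ p.1.2.1) (σ.length + n)) (pt H p) := h1
  have h3 := h_mono 𝒯 l (th 𝒯 p.1.1 l b σ p.1.2.1) (pt H p) (show n ≤ σ.length + n by omega)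
  have h4 : (0 : ℝ) < (1 / 2 : ℝ) ^ ((pre (th 𝒯 p.1.1 l b σ p.1.2.1) (σ.length + n)).length + 1) := by
    positivity
  linarith

theorem alive_th {𝒯 : h917.Tree X} (H : PtH 𝒯) (p : Pp 𝒯) {l : ℕ} {b : ℝ} {σ : List (Fin 3)}
    (h : pt H p ∈ 𝒯.G l σ b) {s : ℝ} (hs : s ≤ b) : 𝒯.Alive l (th 𝒯 p.1.1 l b σ p.1.2.1) s :=
  fun n _ hs' => ⟨pt H p, (hs'.trans_le hs).trans (lt_th H p h n)⟩

end

end Run7.h18.KR
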