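import Pool.Agent.Run7.h18.KR.Th

/-!
# Part I, pieces T4 and T5: the pointed dynamical system and the isomorphism of the lattices
-/

set_option autoImplicit false

open Set TopologicalSpace Topology Filter

namespace Run7.h18.KR

open Run7.h917

universe u

variable {X : Type u} [TopologicalSpace X]

noncomputable section

/-- the composition of a list of maps -/
def cml {𝒯 : h917.Tree X} (H : PtH 𝒯) : List (Par 𝒯) → C(OnePoint (Pp 𝒯), OnePoint (Pp 𝒯))
  | [] => ContinuousMap.id _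
  | a :: L => (a.cm H).comp (cml H L)

theorem cml_append {𝒯 : h917.Tree X} (H : PtH 𝒯) (L M : List (Par 𝒯)) :
    cml H (L ++ M) = (cml H L).comp (cml H M) := by
  induction L with
  | nil => ext1 x; rfl
  | cons a L ih =>
    change (a.cm H).comp (cml H (L ++ M)) = ((a.cm H).comp (cml H L)).comp (cml H M)
    rw [ih]; rfl

theorem cml_infty {𝒯 : h917.Tree X} (H : PtH 𝒯) (L : List (Par 𝒯)) :
    cml H L OnePoint.infty = OnePoint.infty := by
  induction L with
  | nil => rfl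
  | cons a L ih =>
    change a.cm H (cml H L OnePoint.infty) = _
    rw [ih]; rfl

theorem exists_enum (A : Type) [Countable A] :
    ∃ e : ℕ → List A × ℕ, Function.Surjective e :=
  exists_surjective_nat _

/-- the system -/
def sys {𝒯 : h917.Tree X} (H : PtH 𝒯) : PtSys (OnePoint (Pp 𝒯)) where
  pt := OnePoint.infty
  θ := fun i => cml H ((exists_enum (Par 𝒯)).choose i).1
  map_pt := fun i => cml_infty H _
  rep := by
    intro i N
    set e := (exists_enum (Par 𝒯)).choose with he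
    have hs : Function.Surjective e := (exists_enum (Par 𝒯)).choose_spec
    by_contra hc
    push Not at hc
    have h1 : ∀ m : ℕ, ∃ j, j < N ∧ e j = ((e i).1, m) := by
      intro m
      obtain ⟨j, hj⟩ := hs ((e i).1, m)
      refine ⟨j, ?_, hj⟩
      by_contra h2
      exact hc j (not_lt.1 h2) (by rw [hj])
    choose f hf1 hf2 using h1
    have h3 : Function.Injective f := by
      intro m m' hm
      have := hf2 m
      rw [hm, hf2 m'] at this
      exact ((Prod.mk.injEq _ _ _ _).mp this).2.symm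
    have h4 : Function.Injective (fun m : ℕ => (⟨f m, hf1 m⟩ : Fin N)) := by
      intro m m' hm
      exact h3 (Fin.mk.inj_iff.1 hm)
    exact not_injective_infinite_finite _ h4
  one := by
    obtain ⟨i, hi⟩ := (exists_enum (Par 𝒯)).choose_spec ([], 0)
    exact ⟨i, by rw [hi]; rfl⟩
  comp := by
    intro i j
    obtain ⟨k, hk⟩ := (exists_enum (Par 𝒯)).choose_spec
      (((exists_enum (Par 𝒯)).choose i).1 ++ ((exists_enum (Par 𝒯)).choose j).1, 0)
    exact ⟨k, by rw [hk]; exact cml_append H _ _⟩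

/-- every list of maps is in the monoid -/
theorem sys_list {𝒯 : h917.Tree X} (H : PtH 𝒯) (L : List (Par 𝒯)) : ∃ i, (sys H).θ i = cml H L := by
  obtain ⟨i, hi⟩ := (exists_enum (Par 𝒯)).choose_spec (L, 0)
  exact ⟨i, by change cml H ((exists_enum (Par 𝒯)).choose i).1 = _; rw [hi]⟩

/-- the closed set of a closed subset of `X` -/
def FY {𝒯 : h917.Tree X} (H : PtH 𝒯) (Y : Set X) : Set (OnePoint (Pp 𝒯)) :=
  {q | ∀ p : Pp 𝒯, q = (p : OnePoint (Pp 𝒯)) → pt H p ∈ Y}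

theorem infty_mem_FY {𝒯 : h917.Tree X} (H : PtH 𝒯) (Y : Set X) : OnePoint.infty ∈ FY H Y :=
  fun p hp => absurd hp (OnePoint.infty_ne_coe p)

theorem coe_mem_FY {𝒯 : h917.Tree X} (H : PtH 𝒯) (Y : Set X) (p : Pp 𝒯) :
    ((p : OnePoint (Pp 𝒯)) ∈ FY H Y) ↔ pt H p ∈ Y :=
  ⟨fun h => h p rfl, fun h q hq => by rw [← OnePoint.coe_injective hq]; exact h⟩

theorem isClosed_FY {𝒯 : h917.Tree X} (H : PtH 𝒯) {Y : Set X} (hY : IsClosed Y) :
    IsClosed (FY H Y) := by
  rw [OnePoint.isClosed_iff_of_mem (infty_mem_FY H Y)]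
  have : ((fun p : Pp 𝒯 => (p : OnePoint (Pp 𝒯))) ⁻¹' FY H Y) = (pt H ⁻¹' Yᶜ)ᶜ := by
    ext p
    rw [mem_preimage, coe_mem_FY, mem_compl_iff, mem_preimage, mem_compl_iff, not_not]
  change IsClosed ((fun p : Pp 𝒯 => (p : OnePoint (Pp 𝒯))) ⁻¹' FY H Y)
  rw [this]
  exact (isOpen_pt H hY.isOpen_compl).isClosed_compl

theorem cm_mem_FY {𝒯 : h917.Tree X} (H : PtH 𝒯) {Y : Set X} (hY : IsClosed Y) (a : Par 𝒯)
    {q : OnePoint (Pp 𝒯)} (hq : q ∈ FY H Y) : a.cm H q ∈ FY H Y := by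
  induction q using OnePoint.rec with
  | infty => exact infty_mem_FY H Y
  | coe p =>
    by_cases hp : a.Pc p
    · rw [a.cm_pos H hp, coe_mem_FY]
      by_contra hc
      exact a.pt_im H hp hY.isOpen_compl hc ((coe_mem_FY H Y p).1 hq)
    · rw [a.cm_neg H hp]
      exact infty_mem_FY H Y

theorem cml_mem_FY {𝒯 : h917.Tree X} (H : PtH 𝒯) {Y : Set X} (hY : IsClosed Y) (L : List (Par 𝒯))
    {q : OnePoint (Pp 𝒯)} (hq : q ∈ FY H Y) : cml H L q ∈ FY H Y := by
  induction L with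
  | nil => exact hq
  | cons a L ih => exact cm_mem_FY H hY a ih

/-! ### Order reflection -/

/-- a branch through a point -/
theorem exists_branch (𝒯 : h917.Tree X) {k : ℕ} {b : ℝ} {x : X} (hx : x ∈ 𝒯.G k [] b) :
    ∃ z : ℕ → Fin 3, ∀ n, x ∈ 𝒯.G k (pre z n) b := by
  classical
  let f : {σ : List (Fin 3) // x ∈ 𝒯.G k σ b} → {σ : List (Fin 3) // x ∈ 𝒯.G k σ b} :=
    fun σ => ⟨(𝒯.G_step σ.2).choose :: σ.1, (𝒯.G_step σ.2).choose_spec⟩
  let L : ℕ → {σ : List (Fin 3) // x ∈ 𝒯.G k σ b} := fun n => f^[n] ⟨[], hx⟩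
  refine ⟨fun n => (𝒯.G_step (L n).2).choose, fun n => ?_⟩
  have h1 : ∀ n, pre (fun n => (𝒯.G_step (L n).2).choose) n = (L n).1 := by
    intro n
    induction n with
    | zero => rfl
    | succ n ih =>
      change (𝒯.G_step (L n).2).choose :: pre (fun n => (𝒯.G_step (L n).2).choose) n = (L (n + 1)).1
      rw [ih]
      have : L (n + 1) = f (L n) := Function.iterate_succ_apply' f n _
      rw [this]
  rw [h1]
  exact (L n).2

theorem FY_reflect {𝒯 : h917.Tree X} (H : PtH 𝒯) {Y₁ Y₂ : Set X} (h1 : IsClosed Y₁)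
    (h2 : IsClosed Y₂) (h : FY H Y₁ ⊆ FY H Y₂) : Y₁ ⊆ Y₂ := by
  intro x hx
  by_contra hx2
  obtain ⟨k, hk1, hk2⟩ := 𝒯.root x Y₂ᶜ h2.isOpen_compl hx2
  have hG : x ∈ 𝒯.G k [] (1 / 4) := by
    change (1 / 4 : ℝ) + (1 / 2 : ℝ) ^ (([] : List (Fin 3)).length + 1) < 𝒯.h k [] x
    rw [hk1]; norm_num
  obtain ⟨z, hz⟩ := exists_branch 𝒯 hG
  have hlt : ∀ n, (1 / 4 : ℝ) < 𝒯.h k (pre z n) x := by
    intro n
    have h3 : (1 / 4 : ℝ) + (1 / 2 : ℝ) ^ ((pre z n).length + 1) < 𝒯.h k (pre z n) x := hz n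
    have h4 : (0 : ℝ) < (1 / 2 : ℝ) ^ ((pre z n).length + 1) := by positivity
    linarith
  let p : Pp 𝒯 := ⟨(k, z, 1 / 4), by norm_num, fun n s' hs' => ⟨x, hs'.trans (hlt n)⟩⟩
  have hp2 : pt H p ∈ Y₂ᶜ := (pt_mem H p h2.isOpen_compl).2 ⟨0, hk2⟩
  have hp1 : pt H p ∈ Y₁ := by
    by_contra hc
    obtain ⟨n, hn⟩ := (pt_mem H p h1.isOpen_compl).1 hc
    have h5 : 𝒯.h k (pre z n) x = 0 := hn x (fun h => h hx)
    have := hlt n
    rw [h5] at this
    norm_num at this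
  exact hp2 ((coe_mem_FY H Y₂ p).1 (h ((coe_mem_FY H Y₁ p).2 hp1)))

/-! ### Surjectivity -/

theorem FY_surj {𝒯 : h917.Tree X} (H : PtH 𝒯) {F : Set (OnePoint (Pp 𝒯))} (hF : IsClosed F)
    (hinf : OnePoint.infty ∈ F) (hinv : ∀ a : Par 𝒯, ∀ q ∈ F, a.cm H q ∈ F) :
    FY H (closure (pt H '' {p : Pp 𝒯 | (p : OnePoint (Pp 𝒯)) ∈ F})) = F := by
  apply Set.Subset.antisymm
  · intro q hq
    induction q using OnePoint.rec with
    | infty => exact hinf
    | coe p' =>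
      rw [coe_mem_FY] at hq
      have hcl : IsClosed {p : Pp 𝒯 | (p : OnePoint (Pp 𝒯)) ∈ F} :=
        hF.preimage OnePoint.continuous_coe
      suffices h : p' ∈ closure {p : Pp 𝒯 | (p : OnePoint (Pp 𝒯)) ∈ F} by
        rw [hcl.closure_eq] at h; exact h
      -- the approximations
      have key : ∀ (n : ℕ) (b : ℚ), 0 < b → (b : ℝ) + (1 / 2 : ℝ) ^ (n + 1) < p'.1.2.2 →
          ∃ p : Pp 𝒯, (p : OnePoint (Pp 𝒯)) ∈ F ∧ p.1.1 = p'.1.1 ∧
            pre p.1.2.1 n = pre p'.1.2.1 n ∧ p.1.2.2 = b := by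
        intro n b hb hbs
        have hG : pt H p' ∈ 𝒯.G p'.1.1 (pre p'.1.2.1 n) b := by
          change (b : ℝ) + (1 / 2 : ℝ) ^ ((pre p'.1.2.1 n).length + 1) < _
          rw [pre_length]
          exact hbs.trans_le (le_pt H p' n)
        obtain ⟨y, hy1, p, hp, rfl⟩ := mem_closure_iff.1 hq _ (𝒯.isOpen_G _ _ _) hG
        obtain ⟨m, hm⟩ := (pt_mem H p (𝒯.isOpen_G _ _ _)).1 hy1
        obtain ⟨c, hc⟩ := exists_nat_gt ((b : ℝ) / p.1.2.2)
        have hbR : (0 : ℝ) < b := by exact_mod_cast hb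
        have hc0 : (0 : ℝ) < c := (div_pos hbR p.2.1).trans hc
        have hcs : (b : ℝ) ≤ c * p.1.2.2 := ((div_lt_iff₀ p.2.1).1 hc).le
        have hcq : (0 : ℚ) < (c : ℚ) := by exact_mod_cast hc0
        let a : Par 𝒯 := ⟨(p.1.1, pre p.1.2.1 m, p'.1.1, pre p'.1.2.1 n, b, (c : ℚ)), hb,
          hcq, hm⟩
        have hPc : a.Pc p := ⟨rfl, by
          change pre p.1.2.1 (pre p.1.2.1 m).length = pre p.1.2.1 m
          rw [pre_length]⟩
        refine ⟨a.im H p hPc, ?_, rfl, ?_, ?_⟩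
        · rw [← a.cm_pos H hPc]
          exact hinv a _ hp
        · have := pre_th_zero 𝒯 p.1.1 p'.1.1 b (pre p'.1.2.1 n) p.1.2.1
          rw [pre_length] at this
          exact this
        · change min (((c : ℚ) : ℝ) * p.1.2.2) ((b : ℚ) : ℝ) = b
          rw [min_eq_right]
          have : (((c : ℚ) : ℝ)) = (c : ℝ) := by norm_cast
          rw [this]; exact hcs
      -- the sequence
      have hpos := p'.2.1
      obtain ⟨n0, hn0⟩ := exists_pow_lt_of_lt_one hpos (show (1 / 2 : ℝ) < 1 by norm_num)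
      have hseq : ∀ n : ℕ, ∃ p : Pp 𝒯, (p : OnePoint (Pp 𝒯)) ∈ F ∧ p.1.1 = p'.1.1 ∧
            pre p.1.2.1 (n + n0) = pre p'.1.2.1 (n + n0) ∧
            p'.1.2.2 - (1 / 2 : ℝ) ^ (n + n0) < p.1.2.2 ∧ p.1.2.2 < p'.1.2.2 := by
        intro n
        have h1 : (1 / 2 : ℝ) ^ (n + n0) ≤ (1 / 2 : ℝ) ^ n0 :=
          pow_le_pow_of_le_one (by norm_num) (by norm_num) (by omega)
        have h2 : (0 : ℝ) < (1 / 2 : ℝ) ^ (n + n0) := by positivity
        have h3 : (1 / 2 : ℝ) ^ (n + n0 + 1) = (1 / 2 : ℝ) ^ (n + n0) * (1 / 2) := pow_succ _ _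
        obtain ⟨b, hb1, hb2⟩ := exists_rat_btwn (show p'.1.2.2 - (1 / 2 : ℝ) ^ (n + n0) <
          p'.1.2.2 - (1 / 2 : ℝ) ^ (n + n0 + 1) by rw [h3]; linarith)
        have hb0 : (0 : ℝ) < b := by linarith
        obtain ⟨p, hp1, hp2, hp3, hp4⟩ := key (n + n0) b (by exact_mod_cast hb0) (by linarith)
        exact ⟨p, hp1, hp2, hp3, by rw [hp4]; exact hb1, by rw [hp4]; linarith⟩
      choose w hw1 hw2 hw3 hw4 hw5 using hseq
      refine mem_closure_of_tendsto (f := w) (b := atTop) ?_ (Eventually.of_forall hw1)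
      have hind : IsInducing (Subtype.val : {p : Amb // 0 < p.2.2 ∧ 𝒯.Alive p.1 p.2.1 p.2.2} → Amb) :=
        IsInducing.subtypeVal
      refine (hind.tendsto_nhds_iff (f := w) (y := p')).2 ?_
      have hf : (fun n => (w n).1) = fun n => ((p'.1.1, (w n).1.2.1, (w n).1.2.2) : Amb) := by
        funext n
        rw [← hw2 n]
      change Tendsto (fun n => (w n).1) atTop (𝓝 p'.1)
      rw [hf]
      refine Tendsto.prodMk_nhds tendsto_const_nhds (Tendsto.prodMk_nhds ?_ ?_)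
      · rw [tendsto_pi_nhds]
        intro i
        refine tendsto_const_nhds.congr' ?_
        filter_upwards [eventually_gt_atTop i] with n hn
        exact (pre_eq_iff.1 (hw3 n) i (by omega)).symm
      · have h1 : Tendsto (fun n : ℕ => p'.1.2.2 - (1 / 2 : ℝ) ^ (n + n0)) atTop (𝓝 p'.1.2.2) := by
          have h2 : Tendsto (fun n : ℕ => (1 / 2 : ℝ) ^ (n + n0)) atTop (𝓝 0) :=
            (tendsto_pow_atTop_nhds_zero_of_lt_one (by norm_num) (by norm_num)).comp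
              (tendsto_add_atTop_nat n0)
          simpa using tendsto_const_nhds.sub h2
        exact tendsto_of_tendsto_of_tendsto_of_le_of_le h1 tendsto_const_nhds
          (fun n => (hw4 n).le) (fun n => (hw5 n).le)
  · intro q hq
    induction q using OnePoint.rec with
    | infty => exact infty_mem_FY H _
    | coe p =>
      rw [coe_mem_FY]
      exact subset_closure ⟨p, hq, rfl⟩

/-! ### The isomorphism -/

/-- the order embedding -/
def emb {𝒯 : h917.Tree X} (H : PtH 𝒯) : Closeds X ↪o (sys H).InvClosed :=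
  OrderEmbedding.ofMapLEIff (fun Y => (⟨⟨FY H Y, isClosed_FY H Y.isClosed⟩, infty_mem_FY H Y,
    fun i p hp => cml_mem_FY H Y.isClosed _ hp⟩ : (sys H).InvClosed)) (by
    intro Y₁ Y₂
    constructor
    · intro h
      exact FY_reflect H Y₁.isClosed Y₂.isClosed h
    · intro h q hq p hp
      exact h (hq p hp))

theorem emb_surj {𝒯 : h917.Tree X} (H : PtH 𝒯) : Function.Surjective (emb H) := by
  rintro ⟨F, hF1, hF2⟩
  have hinv : ∀ a : Par 𝒯, ∀ q ∈ (F : Set (OnePoint (Pp 𝒯))), a.cm H q ∈ (F : Set (OnePoint (Pp 𝒯))) := by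
    intro a q hq
    obtain ⟨i, hi⟩ := sys_list H [a]
    have := hF2 i q hq
    rw [hi] at this
    exact this
  have h1 := FY_surj H F.isClosed hF1 hinv
  refine ⟨⟨closure (pt H '' {p : Pp 𝒯 | (p : OnePoint (Pp 𝒯)) ∈ (F : Set (OnePoint (Pp 𝒯)))}),
    isClosed_closure⟩, ?_⟩
  apply Subtype.ext
  apply Closeds.ext
  exact h1

end

/-- **T4 + T5** from the existence of a tree and of the points of its branches. -/
theorem exists_ptSys_of (X : Type u) [TopologicalSpace X] (hT : Nonempty (h917.Tree X))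
    (hpt : ∀ (𝒯 : h917.Tree X) {k : ℕ} {z : ℕ → Fin 3} {s : ℝ}, 0 < s → 𝒯.Alive k z s →
      ∃ x : X, (∀ U : Set X, IsOpen U → (x ∈ U ↔ ∃ n, ∀ y, y ∉ U → 𝒯.h k (pre z n) y = 0)) ∧
        ∀ n, s ≤ 𝒯.h k (pre z n) x) :
    ∃ (P : Type) (_ : TopologicalSpace P) (_ : CompactSpace P) (_ : T2Space P)
      (_ : SecondCountableTopology P) (σ : PtSys P),
      Nonempty (TopologicalSpace.Closeds X ≃o σ.InvClosed) := by
  obtain ⟨𝒯⟩ := hT
  have H : PtH 𝒯 := fun k z s hs hz => hpt 𝒯 hs hz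
  exact ⟨OnePoint (Pp 𝒯), inferInstance, inferInstance, inferInstance, secondCountable_onePoint,
    sys H, ⟨RelIso.ofSurjective (emb H) (emb_surj H)⟩⟩

end Run7.h18.KR
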