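import Mathlib

/-!
# The one point compactification of a second countable locally compact Hausdorff space
-/

set_option autoImplicit false

open Set TopologicalSpace Topology Filter

namespace Run7.h18.KR

theorem secondCountable_onePoint {X : Type} [TopologicalSpace X] [SecondCountableTopology X]
    [LocallyCompactSpace X] [T2Space X] : SecondCountableTopology (OnePoint X) := by
  let K : CompactExhaustion X := CompactExhaustion.choice X
  let B : Set (Set (OnePoint X)) := (fun U : Set X => ((↑) '' U : Set (OnePoint X))) '' countableBasis X ∪
    range (fun n : ℕ => (((↑) '' (K n) : Set (OnePoint X)))ᶜ)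
  have hB : IsTopologicalBasis B := by
    apply isTopologicalBasis_of_isOpen_of_nhds
    · rintro u (⟨U, hU, rfl⟩ | ⟨n, rfl⟩)
      · exact OnePoint.isOpen_image_coe.2 (isOpen_of_mem_countableBasis hU)
      · exact OnePoint.isOpen_compl_image_coe.2 ⟨(K.isCompact n).isClosed, K.isCompact n⟩
    · intro a u ha hu
      induction a using OnePoint.rec with
      | infty =>
        have h1 := (OnePoint.isOpen_iff_of_mem ha).1 hu
        obtain ⟨n, hn⟩ := K.exists_superset_of_isCompact h1.2
        refine ⟨_, Or.inr ⟨n, rfl⟩, ?_, ?_⟩
        · rintro ⟨x, _, hx⟩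
          exact OnePoint.coe_ne_infty x hx
        · intro y hy
          induction y using OnePoint.rec with
          | infty => exact ha
          | coe y =>
            by_contra hc
            exact hy ⟨y, hn hc, rfl⟩
      | coe x =>
        have h1 : IsOpen ((↑) ⁻¹' u : Set X) := hu.preimage OnePoint.continuous_coe
        obtain ⟨V, hV, hxV, hVu⟩ := (isBasis_countableBasis X).exists_subset_of_mem_open
          (show x ∈ ((↑) ⁻¹' u : Set X) from ha) h1
        refine ⟨_, Or.inl ⟨V, hV, rfl⟩, ⟨x, hxV, rfl⟩, ?_⟩
        rintro _ ⟨y, hy, rfl⟩
        exact hVu hy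
  exact hB.secondCountableTopology ((countable_countableBasis X).image _ |>.union (countable_range _))

end Run7.h18.KR
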