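import Pool.Agent.Run7.h917.DefsI
import Pool.Agent.Run7.h18.KR.OneP

/-!
# The space of the surviving branches
-/

set_option autoImplicit false

open Set TopologicalSpace Topology Filter

namespace Run7.h18.KR

open Run7.h917

universe u

/-! ### Prefixes -/

theorem pre_length (z : ℕ → Fin 3) (n : ℕ) : (pre z n).length = n := by
  induction n with
  | zero => rfl
  | succ n ih => simp [pre, ih]

theorem pre_congr {z z' : ℕ → Fin 3} {n : ℕ} (h : ∀ i < n, z i = z' i) : pre z n = pre z' n := by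
  induction n with
  | zero => rfl
  | succ n ih =>
    change z n :: pre z n = z' n :: pre z' n
    rw [h n (Nat.lt_succ_self n), ih fun i hi => h i (hi.trans (Nat.lt_succ_self n))]

theorem pre_eq_iff {z z' : ℕ → Fin 3} {n : ℕ} : pre z n = pre z' n ↔ ∀ i < n, z i = z' i := by
  refine ⟨?_, pre_congr⟩
  induction n with
  | zero => intro _ i hi; omega
  | succ n ih =>
    intro h i hi
    change z n :: pre z n = z' n :: pre z' n at h
    rw [List.cons.injEq] at h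
    rcases Nat.lt_succ_iff_lt_or_eq.1 hi with h1 | h1
    · exact ih h.2 i h1
    · rw [h1]; exact h.1

theorem pre_mono {z z' : ℕ → Fin 3} {m n : ℕ} (hmn : m ≤ n) (h : pre z n = pre z' n) :
    pre z m = pre z' m :=
  pre_eq_iff.2 fun i hi => pre_eq_iff.1 h i (hi.trans_le hmn)

theorem isOpen_pre (n : ℕ) (S : Set (List (Fin 3))) : IsOpen {z : ℕ → Fin 3 | pre z n ∈ S} := by
  rw [isOpen_iff_mem_nhds]
  intro z hz
  have h1 : {z' : ℕ → Fin 3 | ∀ i ∈ Finset.range n, z' i = z i} ∈ 𝓝 z := by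
    have : {z' : ℕ → Fin 3 | ∀ i ∈ Finset.range n, z' i = z i} =
        ⋂ i ∈ Finset.range n, (fun z' : ℕ → Fin 3 => z' i) ⁻¹' {z i} := by
      ext z'; simp
    rw [this]
    refine (Filter.biInter_finset_mem _).2 fun i _ => ?_
    exact (continuous_apply i).continuousAt.preimage_mem_nhds
      (IsOpen.mem_nhds (isOpen_discrete _) rfl)
  refine mem_of_superset h1 fun z' hz' => ?_
  have : pre z' n = pre z n := pre_congr fun i hi => hz' i (Finset.mem_range.2 hi)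
  change pre z' n ∈ S
  rw [this]; exact hz

theorem h_mono {X : Type u} [TopologicalSpace X] (𝒯 : h917.Tree X) (k : ℕ) (z : ℕ → Fin 3) (x : X)
    {m n : ℕ} (hmn : m ≤ n) : 𝒯.h k (pre z n) x ≤ 𝒯.h k (pre z m) x := by
  induction n, hmn using Nat.le_induction with
  | base => exact le_rfl
  | succ n _ ih => exact (𝒯.mono k (pre z n) (z n) x).trans ih

/-! ### The space -/

abbrev Amb : Type := ℕ × (ℕ → Fin 3) × ℝ

variable {X : Type u} [TopologicalSpace X]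

theorem isClosed_alive (𝒯 : h917.Tree X) : IsClosed {p : Amb | 𝒯.Alive p.1 p.2.1 p.2.2} := by
  rw [← isOpen_compl_iff]
  have : {p : Amb | 𝒯.Alive p.1 p.2.1 p.2.2}ᶜ = ⋃ (k : ℕ) (n : ℕ) (t : ℝ),
      ({k} : Set ℕ) ×ˢ ({z : ℕ → Fin 3 | pre z n ∈ {τ | ∀ x, 𝒯.h k τ x ≤ t}} ×ˢ Ioi t) := by
    ext ⟨k, z, s⟩
    simp only [mem_compl_iff, Set.mem_ofPred_eq, mem_iUnion, mem_prod, mem_singleton_iff, mem_Ioi,
      h917.Tree.Alive]
    push Not
    constructor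
    · rintro ⟨n, t, ht, h⟩
      exact ⟨k, n, t, rfl, h, ht⟩
    · rintro ⟨k', n, t, rfl, h, ht⟩
      exact ⟨n, t, ht, h⟩
  rw [this]
  refine isOpen_iUnion fun k => isOpen_iUnion fun n => isOpen_iUnion fun t => ?_
  exact (isOpen_discrete _).prod ((isOpen_pre n _).prod isOpen_Ioi)

/-- the surviving branches with positive levels -/
def Pp (𝒯 : h917.Tree X) : Type := {p : Amb // 0 < p.2.2 ∧ 𝒯.Alive p.1 p.2.1 p.2.2}

instance (𝒯 : h917.Tree X) : TopologicalSpace (Pp 𝒯) :=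
  inferInstanceAs (TopologicalSpace {p : Amb // 0 < p.2.2 ∧ 𝒯.Alive p.1 p.2.1 p.2.2})

instance (𝒯 : h917.Tree X) : T2Space (Pp 𝒯) :=
  inferInstanceAs (T2Space {p : Amb // 0 < p.2.2 ∧ 𝒯.Alive p.1 p.2.1 p.2.2})

instance (𝒯 : h917.Tree X) : SecondCountableTopology (Pp 𝒯) :=
  TopologicalSpace.Subtype.secondCountableTopology {p : Amb | 0 < p.2.2 ∧ 𝒯.Alive p.1 p.2.1 p.2.2}

instance (𝒯 : h917.Tree X) : LocallyCompactSpace (Pp 𝒯) := by
  have h1 : IsLocallyClosed {p : Amb | 0 < p.2.2 ∧ 𝒯.Alive p.1 p.2.1 p.2.2} := by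
    have h2 : IsOpen {p : Amb | 0 < p.2.2} := isOpen_lt continuous_const
      (continuous_snd.comp continuous_snd)
    exact h2.isLocallyClosed.inter (isClosed_alive 𝒯).isLocallyClosed
  exact h1.locallyCompactSpace

theorem level_le_one {𝒯 : h917.Tree X} (p : Pp 𝒯) : p.1.2.2 ≤ 1 := by
  by_contra h
  push Not at h
  obtain ⟨x, hx⟩ := p.2.2 0 1 h
  exact absurd ((𝒯.dini _ _).le_one x) (not_le.2 hx)

theorem isCompact_level {𝒯 : h917.Tree X} (k : ℕ) {δ : ℝ} (hδ : 0 < δ) :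
    IsCompact {p : Pp 𝒯 | p.1.1 = k ∧ δ ≤ p.1.2.2} := by
  have hemb : IsEmbedding (Subtype.val : {p : Amb // 0 < p.2.2 ∧ 𝒯.Alive p.1 p.2.1 p.2.2} → Amb) :=
    IsEmbedding.subtypeVal
  change IsCompact {p : {p : Amb // 0 < p.2.2 ∧ 𝒯.Alive p.1 p.2.1 p.2.2} | p.1.1 = k ∧ δ ≤ p.1.2.2}
  rw [hemb.isCompact_iff]
  have h1 : Subtype.val '' {p : {p : Amb // 0 < p.2.2 ∧ 𝒯.Alive p.1 p.2.1 p.2.2} |
      p.1.1 = k ∧ δ ≤ p.1.2.2} = (({k} : Set ℕ) ×ˢ ((univ : Set (ℕ → Fin 3)) ×ˢ Icc δ 1)) ∩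
        {p : Amb | 𝒯.Alive p.1 p.2.1 p.2.2} := by
    ext p
    constructor
    · rintro ⟨q, ⟨hq1, hq2⟩, rfl⟩
      exact ⟨⟨hq1, mem_univ _, hq2, level_le_one (𝒯 := 𝒯) q⟩, q.2.2⟩
    · rintro ⟨⟨h2, -, h3, h4⟩, h5⟩
      exact ⟨⟨p, hδ.trans_le h3, h5⟩, ⟨h2, h3⟩, rfl⟩
  rw [h1]
  exact (isCompact_singleton.prod (isCompact_univ.prod isCompact_Icc)).inter_right
    (isClosed_alive 𝒯)

end Run7.h18.KR
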