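import Pool.Agent.Run7.h18.KR.Br

/-!
# The maps
-/

set_option autoImplicit false

open Set TopologicalSpace Topology Filter

namespace Run7.h18.KR

open Run7.h917

universe u

variable {X : Type u} [TopologicalSpace X]

/-- the parameters `(k, τ, l, σ, b, c)` of the maps -/
def Par (𝒯 : h917.Tree X) : Type :=
  {a : ℕ × List (Fin 3) × ℕ × List (Fin 3) × ℚ × ℚ // 0 < a.2.2.2.2.1 ∧ 0 < a.2.2.2.2.2 ∧
    ∀ y, y ∉ 𝒯.G a.2.2.1 a.2.2.2.1 a.2.2.2.2.1 → 𝒯.h a.1 a.2.1 y = 0}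

instance (𝒯 : h917.Tree X) : Countable (Par 𝒯) :=
  inferInstanceAs (Countable {a : ℕ × List (Fin 3) × ℕ × List (Fin 3) × ℚ × ℚ //
    0 < a.2.2.2.2.1 ∧ 0 < a.2.2.2.2.2 ∧
      ∀ y, y ∉ 𝒯.G a.2.2.1 a.2.2.2.1 a.2.2.2.2.1 → 𝒯.h a.1 a.2.1 y = 0})

namespace Par
variable {𝒯 : h917.Tree X} (a : Par 𝒯)

/-- parameter -/
def k : ℕ := a.1.1
/-- parameter -/
def t : List (Fin 3) := a.1.2.1
/-- parameter -/
def l : ℕ := a.1.2.2.1
/-- parameter -/
def g : List (Fin 3) := a.1.2.2.2.1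
/-- parameter -/
def b : ℝ := (a.1.2.2.2.2.1 : ℚ)
/-- parameter -/
def c : ℝ := (a.1.2.2.2.2.2 : ℚ)

theorem b_pos : 0 < a.b := by
  have := a.2.1
  unfold Par.b
  exact_mod_cast this

theorem c_pos : 0 < a.c := by
  have := a.2.2.1
  unfold Par.c
  exact_mod_cast this

theorem supp : ∀ y, y ∉ 𝒯.G a.l a.g a.b → 𝒯.h a.k a.t y = 0 := a.2.2.2

/-- the clopen piece on which the map is not constant -/
def Pc (p : Pp 𝒯) : Prop := p.1.1 = a.k ∧ pre p.1.2.1 a.t.length = a.t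

theorem pt_G (H : PtH 𝒯) {p : Pp 𝒯} (hp : a.Pc p) : pt H p ∈ 𝒯.G a.l a.g a.b := by
  refine (pt_mem H p (𝒯.isOpen_G _ _ _)).2 ⟨a.t.length, ?_⟩
  rw [hp.1, hp.2]
  exact a.supp

theorem isOpen_Pc : IsOpen {p : Pp 𝒯 | a.Pc p} := by
  have h1 : IsOpen (({a.k} : Set ℕ) ×ˢ
      ({z : ℕ → Fin 3 | pre z a.t.length ∈ ({a.t} : Set (List (Fin 3)))} ×ˢ (univ : Set ℝ))) :=
    (isOpen_discrete _).prod ((isOpen_pre _ _).prod isOpen_univ)
  have hval : Continuous (fun q : Pp 𝒯 => q.1) := continuous_subtype_val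
  have e : {p : Pp 𝒯 | a.Pc p} = (fun q : Pp 𝒯 => q.1) ⁻¹' (({a.k} : Set ℕ) ×ˢ
      ({z : ℕ → Fin 3 | pre z a.t.length ∈ ({a.t} : Set (List (Fin 3)))} ×ˢ (univ : Set ℝ))) := by
    ext p
    constructor
    · rintro ⟨h3, h4⟩; exact ⟨h3, h4, trivial⟩
    · rintro ⟨h3, h4, -⟩; exact ⟨h3, h4⟩
  rw [e]
  exact h1.preimage hval

theorem isOpen_not_Pc : IsOpen {p : Pp 𝒯 | ¬ a.Pc p} := by
  have h1 : IsOpen ((({a.k} : Set ℕ)ᶜ ×ˢ (univ : Set ((ℕ → Fin 3) × ℝ))) ∪ ((univ : Set ℕ) ×ˢ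
      ({z : ℕ → Fin 3 | pre z a.t.length ∈ ({a.t} : Set (List (Fin 3)))ᶜ} ×ˢ (univ : Set ℝ)))) :=
    ((isOpen_discrete _).prod isOpen_univ).union
      (isOpen_univ.prod ((isOpen_pre _ _).prod isOpen_univ))
  have hval : Continuous (fun q : Pp 𝒯 => q.1) := continuous_subtype_val
  have e : {p : Pp 𝒯 | ¬ a.Pc p} = (fun q : Pp 𝒯 => q.1) ⁻¹'
      ((({a.k} : Set ℕ)ᶜ ×ˢ (univ : Set ((ℕ → Fin 3) × ℝ))) ∪ ((univ : Set ℕ) ×ˢ
      ({z : ℕ → Fin 3 | pre z a.t.length ∈ ({a.t} : Set (List (Fin 3)))ᶜ} ×ˢ (univ : Set ℝ)))) := by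
    ext p
    constructor
    · intro h3
      by_cases h4 : p.1.1 = a.k
      · exact Or.inr ⟨trivial, fun h5 => h3 ⟨h4, h5⟩, trivial⟩
      · exact Or.inl ⟨h4, trivial⟩
    · rintro (⟨h3, -⟩ | ⟨-, h3, -⟩) h4
      · exact h3 h4.1
      · exact h3 h4.2
  rw [e]
  exact h1.preimage hval

noncomputable section

/-- the image of a point of the piece -/
def im (H : PtH 𝒯) (p : Pp 𝒯) (hp : a.Pc p) : Pp 𝒯 :=
  ⟨(a.l, th 𝒯 p.1.1 a.l a.b a.g p.1.2.1, min (a.c * p.1.2.2) a.b),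
    lt_min (mul_pos a.c_pos p.2.1) a.b_pos, alive_th H p (a.pt_G H hp) (min_le_right _ _)⟩

open Classical in
/-- the map on the points of the piece, extended by the identity -/
def imt (H : PtH 𝒯) (p : Pp 𝒯) : Pp 𝒯 := if hp : a.Pc p then a.im H p hp else p

open Classical in
/-- the map on the points which are not the base point -/
def mp (H : PtH 𝒯) (p : Pp 𝒯) : OnePoint (Pp 𝒯) := if a.Pc p then (a.imt H p : OnePoint (Pp 𝒯)) else OnePoint.infty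

/-- the map -/
def fn (H : PtH 𝒯) (q : OnePoint (Pp 𝒯)) : OnePoint (Pp 𝒯) := q.elim OnePoint.infty (a.mp H)

theorem continuousAt_imt (H : PtH 𝒯) {p : Pp 𝒯} (hp : a.Pc p) : ContinuousAt (a.imt H) p := by
  have hind : IsInducing (Subtype.val : {p : Amb // 0 < p.2.2 ∧ 𝒯.Alive p.1 p.2.1 p.2.2} → Amb) :=
    IsInducing.subtypeVal
  refine (hind.continuousAt_iff (f := a.imt H)).2 ?_
  have hev : (fun q : Pp 𝒯 => ((a.l, th 𝒯 a.k a.l a.b a.g q.1.2.1, min (a.c * q.1.2.2) a.b) : Amb))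
      =ᶠ[𝓝 p] (Subtype.val ∘ a.imt H) := by
    filter_upwards [a.isOpen_Pc.mem_nhds hp] with q hq
    have hq' : a.Pc q := hq
    change _ = (a.imt H q).1
    unfold imt
    rw [dif_pos hq']
    change _ = (a.l, th 𝒯 q.1.1 a.l a.b a.g q.1.2.1, min (a.c * q.1.2.2) a.b)
    rw [hq'.1]
  refine ContinuousAt.congr ?_ hev
  have hval : Continuous (fun q : Pp 𝒯 => q.1) := continuous_subtype_val
  refine continuousAt_const.prodMk (ContinuousAt.prodMk ?_ ?_)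
  · rw [continuousAt_pi]
    intro m
    obtain ⟨N, hN⟩ := th_congr H p (a.pt_G H hp) m
    have hev2 : (fun _ : Pp 𝒯 => th 𝒯 a.k a.l a.b a.g p.1.2.1 m) =ᶠ[𝓝 p]
        fun q : Pp 𝒯 => th 𝒯 a.k a.l a.b a.g q.1.2.1 m := by
      have h1 : IsOpen {q : Pp 𝒯 | pre q.1.2.1 N ∈ ({pre p.1.2.1 N} : Set _)} :=
        (isOpen_pre N _).preimage ((continuous_fst.comp continuous_snd).comp hval)
      filter_upwards [h1.mem_nhds (show pre p.1.2.1 N ∈ ({pre p.1.2.1 N} : Set _) from rfl)] with q hq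
      have hq' : pre q.1.2.1 N = pre p.1.2.1 N := hq
      have := hN q.1.2.1 (pre_eq_iff.1 hq')
      rw [hp.1] at this
      exact this.symm
    exact continuousAt_const.congr hev2
  · exact ((continuous_const.mul ((continuous_snd.comp continuous_snd).comp hval)).min
      continuous_const).continuousAt

theorem continuous_mp (H : PtH 𝒯) : Continuous (a.mp H) := by
  rw [continuous_iff_continuousAt]
  intro p
  by_cases hp : a.Pc p
  · have h1 : ContinuousAt (fun q : Pp 𝒯 => (a.imt H q : OnePoint (Pp 𝒯))) p :=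
      OnePoint.continuous_coe.continuousAt.comp (a.continuousAt_imt H hp)
    refine h1.congr ?_
    filter_upwards [a.isOpen_Pc.mem_nhds hp] with q hq
    unfold mp
    rw [if_pos hq]
  · refine (continuousAt_const (y := (OnePoint.infty : OnePoint (Pp 𝒯)))).congr ?_
    filter_upwards [a.isOpen_not_Pc.mem_nhds hp] with q hq
    unfold mp
    rw [if_neg hq]

theorem continuous_fn (H : PtH 𝒯) : Continuous (a.fn H) := by
  rw [OnePoint.continuous_iff]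
  refine ⟨?_, a.continuous_mp H⟩
  change Tendsto (a.mp H) (coclosedCompact (Pp 𝒯)) (𝓝 OnePoint.infty)
  intro V hV
  obtain ⟨V', hV', hVo, hmem⟩ := mem_nhds_iff.1 hV
  have hK := ((OnePoint.isOpen_iff_of_mem hmem).1 hVo).2
  have hval : Continuous (fun q : Pp 𝒯 => q.1.2.2) :=
    (continuous_snd.comp continuous_snd).comp continuous_subtype_val
  obtain ⟨δ, hδ, hδK⟩ := hK.exists_forall_le' (a := (0 : ℝ)) hval.continuousOn
    (fun q _ => q.2.1)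
  have hcomp := isCompact_level (𝒯 := 𝒯) a.k (div_pos hδ a.c_pos)
  rw [mem_map]
  refine mem_of_superset (hcomp.compl_mem_coclosedCompact_of_isClosed hcomp.isClosed) ?_
  intro p hp
  by_contra hc
  apply hp
  have hc' : a.mp H p ∉ V' := fun h => hc (hV' h)
  have hPc : a.Pc p := by
    by_contra h
    apply hc'
    unfold mp
    rw [if_neg h]
    exact hmem
  refine ⟨hPc.1, ?_⟩
  have h1 : a.mp H p = ((a.im H p hPc : Pp 𝒯) : OnePoint (Pp 𝒯)) := by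
    unfold mp imt
    rw [if_pos hPc, dif_pos hPc]
  rw [h1] at hc'
  have h2 : δ ≤ (a.im H p hPc).1.2.2 := hδK _ hc'
  have h3 : δ ≤ a.c * p.1.2.2 := h2.trans (min_le_left _ _)
  rw [div_le_iff₀ a.c_pos, mul_comm]
  exact h3

/-- the map as a continuous map -/
def cm (H : PtH 𝒯) : C(OnePoint (Pp 𝒯), OnePoint (Pp 𝒯)) := ⟨a.fn H, a.continuous_fn H⟩

theorem cm_infty (H : PtH 𝒯) : a.cm H OnePoint.infty = OnePoint.infty := rfl

theorem cm_pos (H : PtH 𝒯) {p : Pp 𝒯} (hp : a.Pc p) :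
    a.cm H (p : OnePoint (Pp 𝒯)) = ((a.im H p hp : Pp 𝒯) : OnePoint (Pp 𝒯)) := by
  change a.mp H p = _
  unfold mp imt
  rw [if_pos hp, dif_pos hp]

theorem cm_neg (H : PtH 𝒯) {p : Pp 𝒯} (hp : ¬ a.Pc p) :
    a.cm H (p : OnePoint (Pp 𝒯)) = OnePoint.infty := by
  change a.mp H p = _
  unfold mp
  rw [if_neg hp]

/-- (4.1) -/
theorem pt_im (H : PtH 𝒯) {p : Pp 𝒯} (hp : a.Pc p) {U : Set X} (hU : IsOpen U)
    (h : pt H (a.im H p hp) ∈ U) : pt H p ∈ U := by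
  obtain ⟨n, hn⟩ := (pt_mem H _ hU).1 h
  by_contra hc
  have h1 := hn _ hc
  have h2 : 𝒯.h a.l (pre (th 𝒯 p.1.1 a.l a.b a.g p.1.2.1) n) (pt H p) = 0 := h1
  have h3 := lt_th H p (a.pt_G H hp) n
  rw [h2] at h3
  exact absurd a.b_pos (not_lt.2 h3.le)

end

end Par

end Run7.h18.KR
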